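import Mathlib

set_option autoImplicit false
set_option linter.unusedSectionVars false

/-!
# Divisibility of rationals by powers of a prime, and the recurrences
-/

namespace Pool.Agent.Helper62K9.SC

open Finset

/-- `x` is `p ^ n` times a rational whose denominator is prime to `p`. -/
def I (p n : ℕ) (x : ℚ) : Prop := ∃ a b : ℤ, ¬ (p : ℤ) ∣ b ∧ x * b = (p : ℚ) ^ n * a

section
variable {p : ℕ} (hp : p.Prime)
include hp

lemma I.zero (n : ℕ) : I p n 0 := ⟨0, 1, by
  intro h; have := Int.eq_one_of_dvd_one (by positivity) h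
  exact hp.one_lt.ne' (by exact_mod_cast this), by simp⟩

lemma I.int (z : ℤ) : I p 0 z := ⟨z, 1, by
  intro h; have := Int.eq_one_of_dvd_one (by positivity) h
  exact hp.one_lt.ne' (by exact_mod_cast this), by simp⟩

lemma I.nat (z : ℕ) : I p 0 z := by simpa using I.int hp (z : ℤ)

lemma I.of_dvd {n : ℕ} {z : ℤ} (h : ((p : ℤ) ^ n) ∣ z) : I p n z := by
  obtain ⟨w, rfl⟩ := h
  refine ⟨w, 1, ?_, by push_cast; ring⟩
  intro h; have := Int.eq_one_of_dvd_one (by positivity) h
  exact hp.one_lt.ne' (by exact_mod_cast this)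

lemma I.of_dvd_nat {n : ℕ} {z : ℕ} (h : (p ^ n) ∣ z) : I p n z := by
  have : ((p : ℤ) ^ n) ∣ (z : ℤ) := by exact_mod_cast h
  simpa using I.of_dvd hp this

lemma I.pow (n : ℕ) : I p n ((p : ℚ) ^ n) := by
  have := I.of_dvd hp (n := n) (z := (p : ℤ) ^ n) dvd_rfl
  simpa using this

lemma prime_int : Prime (p : ℤ) := Nat.prime_iff_prime_int.1 hp

lemma I.mul {n m : ℕ} {x y : ℚ} (hx : I p n x) (hy : I p m y) : I p (n + m) (x * y) := by
  obtain ⟨a, b, hb, e⟩ := hx
  obtain ⟨c, d, hd, f⟩ := hy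
  refine ⟨a * c, b * d, ?_, ?_⟩
  · intro h
    rcases (prime_int hp).dvd_or_dvd h with h | h
    · exact hb h
    · exact hd h
  · push_cast
    calc x * y * (b * d) = (x * b) * (y * d) := by ring
      _ = _ := by rw [e, f]; ring

lemma I.mul0 {m : ℕ} {x y : ℚ} (hx : I p 0 x) (hy : I p m y) : I p m (x * y) := by
  simpa using I.mul hp hx hy

lemma I.add {n : ℕ} {x y : ℚ} (hx : I p n x) (hy : I p n y) : I p n (x + y) := by
  obtain ⟨a, b, hb, e⟩ := hx
  obtain ⟨c, d, hd, f⟩ := hy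
  refine ⟨a * d + c * b, b * d, ?_, ?_⟩
  · intro h
    rcases (prime_int hp).dvd_or_dvd h with h | h
    · exact hb h
    · exact hd h
  · push_cast
    calc (x + y) * (b * d) = (x * b) * d + (y * d) * b := by ring
      _ = _ := by rw [e, f]; ring

lemma I.neg {n : ℕ} {x : ℚ} (hx : I p n x) : I p n (-x) := by
  obtain ⟨a, b, hb, e⟩ := hx
  exact ⟨-a, b, hb, by push_cast; linear_combination -e⟩

lemma I.sub {n : ℕ} {x y : ℚ} (hx : I p n x) (hy : I p n y) : I p n (x - y) := by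
  rw [sub_eq_add_neg]; exact hx.add hp (hy.neg hp)

lemma I.mono {n m : ℕ} (h : m ≤ n) {x : ℚ} (hx : I p n x) : I p m x := by
  obtain ⟨a, b, hb, e⟩ := hx
  obtain ⟨k, rfl⟩ := Nat.exists_eq_add_of_le h
  exact ⟨p ^ k * a, b, hb, by rw [e]; push_cast; ring⟩

lemma I.inv {z : ℤ} (h : ¬ (p : ℤ) ∣ z) : I p 0 ((z : ℚ)⁻¹) := by
  refine ⟨1, z, h, ?_⟩
  have : (z : ℚ) ≠ 0 := by
    rintro h0
    apply h
    have : z = 0 := by exact_mod_cast h0
    rw [this]; exact dvd_zero _
  field_simp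
  simp

lemma I.sum {ι : Type*} (s : Finset ι) {n : ℕ} (f : ι → ℚ) (h : ∀ i ∈ s, I p n (f i)) :
    I p n (∑ i ∈ s, f i) := by
  classical
  induction s using Finset.induction_on with
  | empty => simpa using I.zero hp n
  | insert a s ha ih =>
    rw [Finset.sum_insert ha]
    exact (h _ (mem_insert_self _ _)).add hp (ih fun i hi => h i (mem_insert_of_mem hi))

lemma I.pow_mul {n : ℕ} {x : ℚ} (hx : I p n x) (k : ℕ) : I p (n * k) (x ^ k) := by
  induction k with
  | zero => simpa using I.int hp 1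
  | succ k ih => rw [pow_succ, Nat.mul_succ]; exact ih.mul hp hx

/-- The conclusion in terms of the `p`-adic valuation. -/
lemma I.val {n : ℕ} {x : ℚ} (hx : I p n x) : x = 0 ∨ (n : ℤ) ≤ padicValRat p x := by
  have := Fact.mk hp
  obtain ⟨a, b, hb, e⟩ := hx
  by_cases h0 : x = 0
  · exact Or.inl h0
  right
  have hb0 : (b : ℚ) ≠ 0 := by
    intro h
    apply hb
    have : b = 0 := by exact_mod_cast h
    rw [this]; exact dvd_zero _
  have hp0 : (p : ℚ) ≠ 0 := by exact_mod_cast hp.ne_zero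
  have ha0 : (a : ℚ) ≠ 0 := by
    intro h
    rw [h, mul_zero] at e
    exact (mul_ne_zero h0 hb0) e
  have h1 : padicValRat p (x * b) = padicValRat p ((p : ℚ) ^ n * a) := by rw [e]
  rw [padicValRat.mul h0 hb0, padicValRat.mul (pow_ne_zero _ hp0) ha0, padicValRat.pow,
    padicValRat.self hp.one_lt] at h1
  have h2 : padicValRat p (b : ℚ) = 0 := by
    rw [padicValRat.of_int, padicValInt.eq_zero_of_not_dvd hb]; rfl
  have h3 : 0 ≤ padicValRat p (a : ℚ) := by
    rw [padicValRat.of_int]; positivity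
  rw [h2] at h1
  linarith

end

/-- the rising factorial `a (a + 1) ⋯ (a + k - 1)` -/
def poch (a : ℚ) (k : ℕ) : ℚ := ∏ i ∈ range k, (a + i)

/-- `(-1/2)_k / k!` -/
def b (k : ℕ) : ℚ := poch (-1 / 2) k / (k.factorial : ℚ)

lemma b_zero : b 0 = 1 := by simp [b, poch]

lemma b_succ (n : ℕ) : 2 * ((n : ℚ) + 1) * b (n + 1) = (2 * n - 1) * b n := by
  unfold b poch
  rw [prod_range_succ, Nat.factorial_succ]
  have h1 : ((n.factorial : ℕ) : ℚ) ≠ 0 := by exact_mod_cast n.factorial_ne_zero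
  have h2 : ((n : ℚ) + 1) ≠ 0 := by positivity
  push_cast
  field_simp
  ring

/-- `b n` in terms of central binomial coefficients -/
lemma b_eq (n : ℕ) : (2 * (n : ℚ) - 1) * b n = - ((2 * n).choose n : ℚ) / 4 ^ n := by
  induction n with
  | zero => simp [b_zero]
  | succ n ih =>
    have h := b_succ n
    have h2 : ((n : ℚ) + 1) ≠ 0 := by positivity
    have hc : (((2 * (n + 1)).choose (n + 1) : ℕ) : ℚ) * (n + 1) = 2 * (2 * n + 1) * ((2 * n).choose n : ℕ) := by
      have := Nat.succ_mul_centralBinom_succ n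
      unfold Nat.centralBinom at this
      have h3 : (((n + 1) * (2 * (n + 1)).choose (n + 1) : ℕ) : ℚ) = ((2 * (2 * n + 1) * (2 * n).choose n : ℕ) : ℚ) := by
        rw [this]
      push_cast at h3
      linarith
    have key : (n + 1) * ((2 * ((n + 1 : ℕ) : ℚ) - 1) * b (n + 1)) =
        (n + 1) * (-(((2 * (n + 1)).choose (n + 1) : ℕ) : ℚ) / 4 ^ (n + 1)) := by
      have e1 : (n + 1) * ((2 * ((n + 1 : ℕ) : ℚ) - 1) * b (n + 1)) =
          (2 * n + 1) / 2 * ((2 * n - 1) * b n) := by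
        rw [← h]; push_cast; ring
      rw [e1, ih]
      rw [pow_succ]
      have h4 : (4 : ℚ) ^ n ≠ 0 := by positivity
      field_simp
      linear_combination (2:ℚ) * hc
    exact mul_left_cancel₀ h2 key

/-- `b (n + 1)` is an integer over a power of `4` -/
lemma b_int (n : ℕ) : b (n + 1) * 4 ^ (n + 1) =
    ((2 * (n + 1)).choose (n + 1) : ℚ) - 4 * ((2 * n).choose n : ℚ) := by
  have h := b_eq n
  have h' := b_succ n
  have h2 : ((n : ℚ) + 1) ≠ 0 := by positivity
  have hc : (((2 * (n + 1)).choose (n + 1) : ℕ) : ℚ) * (n + 1) = 2 * (2 * n + 1) * ((2 * n).choose n : ℕ) := by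
    have := Nat.succ_mul_centralBinom_succ n
    unfold Nat.centralBinom at this
    have h3 : (((n + 1) * (2 * (n + 1)).choose (n + 1) : ℕ) : ℚ) = ((2 * (2 * n + 1) * (2 * n).choose n : ℕ) : ℚ) := by
      rw [this]
    push_cast at h3
    linarith
  apply mul_left_cancel₀ h2
  have h4 : (4 : ℚ) ^ n ≠ 0 := by positivity
  have e1 : ((n : ℚ) + 1) * (b (n + 1) * 4 ^ (n + 1)) = 2 * 4 ^ n * ((2 * n - 1) * b n) := by
    rw [← h']; ring
  rw [e1, h]
  field_simp
  linear_combination -hc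

end Pool.Agent.Helper62K9.SC
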