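import Pool.Agent.Helper62K9.SC.Red

set_option autoImplicit false
set_option linter.unusedSectionVars false

/-!
# The congruences for the exponent `1`
-/

namespace Pool.Agent.Helper62K9.SC

open Finset

section
variable {p : ℕ} (hp : p.Prime)
include hp

lemma I.prod_sub {ι : Type*} (s : Finset ι) {n : ℕ} (f g : ι → ℚ) (hf : ∀ i ∈ s, I p 0 (f i))
    (hg : ∀ i ∈ s, I p 0 (g i)) (h : ∀ i ∈ s, I p n (f i - g i)) :
    I p n (∏ i ∈ s, f i - ∏ i ∈ s, g i) ∧ I p 0 (∏ i ∈ s, f i) := by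
  classical
  induction s using Finset.induction_on with
  | empty => simpa using ⟨I.zero hp n, by simpa using I.int hp 1⟩
  | insert a s ha ih =>
    obtain ⟨h1, h2⟩ := ih (fun i hi => hf i (mem_insert_of_mem hi)) (fun i hi => hg i (mem_insert_of_mem hi))
      (fun i hi => h i (mem_insert_of_mem hi))
    rw [prod_insert ha, prod_insert ha]
    refine ⟨?_, ?_⟩
    · have e : f a * ∏ i ∈ s, f i - g a * ∏ i ∈ s, g i =
          (∏ i ∈ s, f i) * (f a - g a) + g a * (∏ i ∈ s, f i - ∏ i ∈ s, g i) := by ring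
      rw [e]
      exact (I.mul0 hp h2 (h a (mem_insert_self _ _))).add hp
        (I.mul0 hp (hg a (mem_insert_self _ _)) h1)
    · exact I.mul0 hp (hf a (mem_insert_self _ _)) h2

lemma I.dvd {z : ℤ} (h : I p 1 (z : ℚ)) : (p : ℤ) ∣ z := by
  obtain ⟨a, b, hb, e⟩ := h
  have e' : z * b = p * a := by
    have : ((z * b : ℤ) : ℚ) = ((p * a : ℤ) : ℚ) := by push_cast; rw [e]; ring
    exact_mod_cast this
  have : (p : ℤ) ∣ z * b := ⟨a, e'⟩
  rcases (prime_int hp).dvd_or_dvd this with h | h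
  · exact h
  · exact absurd h hb

/-- dividing by a natural number of small valuation -/
lemma I.div_nat {n s : ℕ} {x : ℚ} {z : ℕ} (hz : z ≠ 0) (hs : z.factorization p ≤ s)
    (hx : I p (n + s) x) : I p n (x / z) := by
  have h1 := Nat.ordProj_mul_ordCompl_eq_self z p
  have h2 := Nat.not_dvd_ordCompl hp hz
  generalize z / p ^ z.factorization p = u at h1 h2
  obtain ⟨a, b, hb, e⟩ := hx
  obtain ⟨k, hk⟩ := Nat.exists_eq_add_of_le hs
  have hu : ¬ (p : ℤ) ∣ (u : ℤ) := by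
    intro h; exact h2 (by exact_mod_cast h)
  refine ⟨p ^ k * a, b * u, ?_, ?_⟩
  · intro h
    rcases (prime_int hp).dvd_or_dvd h with h | h
    · exact hb h
    · exact hu h
  · have hz' : (z : ℚ) ≠ 0 := by exact_mod_cast hz
    have h1' : (p : ℚ) ^ z.factorization p * u = z := by exact_mod_cast h1
    have hp0 : (p : ℚ) ^ z.factorization p ≠ 0 := by
      have : (p : ℚ) ≠ 0 := by exact_mod_cast hp.ne_zero
      positivity
    push_cast
    have e2 : x / z * (b * u) = (x * b) * u / z := by ring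
    rw [e2, e, hk, ← h1', pow_add, pow_add]
    have hu0 : (u : ℚ) ≠ 0 := by
      intro h
      rw [h, mul_zero] at h1'
      exact hz' h1'.symm
    field_simp

lemma dvd_choose {r a c : ℕ} (ha : a < p ^ r) (hc : c < p ^ r) (h : p ^ r ≤ a + c) :
    p ∣ (a + c).choose a := by
  have hr : r ≠ 0 := by
    rintro rfl
    simp at ha hc; subst ha hc; simp at h
  have h1 := Nat.factorization_choose' (p := p) (n := c) (k := a) (b := Nat.log p (c + a) + r + 1) hp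
    (by omega)
  rw [add_comm c a] at h1
  have h2 : 0 < ((a + c).choose a).factorization p := by
    rw [h1, card_pos]
    refine ⟨r, ?_⟩
    simp only [mem_filter, mem_Ico]
    refine ⟨⟨by omega, by omega⟩, ?_⟩
    rw [Nat.mod_eq_of_lt ha, Nat.mod_eq_of_lt hc]
    exact h
  exact Nat.dvd_of_factorization_pos h2.ne'

variable (h2 : p ≠ 2)
include h2

lemma not_dvd_two_pow (n : ℕ) : ¬ (p : ℤ) ∣ ((2 : ℤ) ^ n) := by
  intro h
  have h3 := (prime_int hp).dvd_of_dvd_pow h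
  have h4 : p ∣ 2 := by exact_mod_cast h3
  rcases (Nat.dvd_prime Nat.prime_two).1 h4 with h5 | h5
  · exact hp.one_lt.ne' h5
  · exact h2 h5

lemma I.inv_two_pow (n : ℕ) : I p 0 (((2 : ℚ) ^ n)⁻¹) := by
  have := I.inv (p := p) hp (not_dvd_two_pow hp h2 n)
  simpa using this

lemma I.inv_four_pow (n : ℕ) : I p 0 (((4 : ℚ) ^ n)⁻¹) := by
  have := I.inv_two_pow hp h2 (2 * n)
  rw [_root_.pow_mul] at this
  norm_num at this ⊢
  exact this

lemma I_b (n : ℕ) : I p 0 (b n) := by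
  rcases n with _ | n
  · rw [b_zero]; simpa using I.int hp 1
  · have h := b_int n
    have e : b (n + 1) = (((2 * (n + 1)).choose (n + 1) : ℕ) - 4 * ((2 * n).choose n : ℕ) : ℚ) * ((4 : ℚ) ^ (n + 1))⁻¹ := by
      rw [← h]
      have : (4 : ℚ) ^ (n + 1) ≠ 0 := by positivity
      field_simp
    rw [e]
    refine I.mul0 hp (I.sub hp (I.nat hp _) (I.mul0 hp ?_ (I.nat hp _))) (I.inv_four_pow hp h2 _)
    simpa using I.nat hp 4

lemma I_b_one {n : ℕ} (ha : p ∣ (2 * (n + 1)).choose (n + 1)) (hb : p ∣ (2 * n).choose n) :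
    I p 1 (b (n + 1)) := by
  have h := b_int n
  have e : b (n + 1) = (((2 * (n + 1)).choose (n + 1) : ℕ) - 4 * ((2 * n).choose n : ℕ) : ℚ) * ((4 : ℚ) ^ (n + 1))⁻¹ := by
    rw [← h]
    have : (4 : ℚ) ^ (n + 1) ≠ 0 := by positivity
    field_simp
  rw [e]
  have h1 : I p 1 (((2 * (n + 1)).choose (n + 1) : ℕ) : ℚ) := I.of_dvd_nat hp (by simpa using ha)
  have h3 : I p 1 (((2 * n).choose n : ℕ) : ℚ) := I.of_dvd_nat hp (by simpa using hb)
  have := I.mul hp (I.sub hp h1 (I.mul0 hp (x := (4 : ℚ)) (by simpa using I.nat hp 4) h3)) (I.inv_four_pow hp h2 (n + 1))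
  simpa using this

variable {r h : ℕ} (hr : 1 ≤ r) (hq : p ^ r = 2 * h + 1)
include hr hq

lemma h_pos : 1 ≤ h := by
  have : 2 < p ^ r := by
    calc 2 < p := by have := hp.two_le; omega
      _ = p ^ 1 := (pow_one p).symm
      _ ≤ p ^ r := Nat.pow_le_pow_right hp.pos hr
  omega

/-- `q / i` is divisible by `p` for `1 ≤ i < q` -/
lemma I_div {i : ℕ} (h0 : i ≠ 0) (hi : i < p ^ r) : I p 1 ((p : ℚ) ^ r / i) := by
  have hlog : i.factorization p ≤ r - 1 := by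
    have h3 : p ^ i.factorization p ≤ i := Nat.ordProj_le p h0
    have h4 : p ^ i.factorization p < p ^ r := lt_of_le_of_lt h3 hi
    have := (Nat.pow_lt_pow_iff_right hp.one_lt).1 h4
    omega
  apply I.div_nat hp h0 hlog
  have := I.pow hp r
  rwa [show 1 + (r - 1) = r by omega]

lemma cb_prod1 (k : ℕ) : ∏ i ∈ range k, (1 - ((p : ℚ) ^ r) / ((i + 1 : ℕ) : ℚ)) =
    (-1) ^ k * ((2 * h).choose k : ℕ) := by
  induction k with
  | zero => simp
  | succ k ih =>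
    rw [prod_range_succ, ih]
    have h3 := choose_rec2 (2 * h) k
    have hq' : (p : ℚ) ^ r = 2 * h + 1 := by exact_mod_cast hq
    rw [hq']
    have hk : ((k : ℚ) + 1) ≠ 0 := by positivity
    push_cast at h3 ⊢
    apply mul_left_cancel₀ hk
    field_simp
    rw [pow_succ]
    linear_combination ((-1) ^ k) * h3

lemma cb_prod2 : (-4) ^ h * ∏ i ∈ range h, (1 - ((p : ℚ) ^ r) / ((i + 1 : ℕ) : ℚ) / 2) =
    ((2 * h).choose h : ℕ) := by
  have hq' : (p : ℚ) ^ r = 2 * h + 1 := by exact_mod_cast hq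
  have e1 : ∏ i ∈ range h, (1 - ((p : ℚ) ^ r) / ((i + 1 : ℕ) : ℚ) / 2) =
      (∏ i ∈ range h, (-(2 * (((h - 1 - i : ℕ)) : ℚ) + 1))) * (∏ i ∈ range h, (1 / (2 * ((i : ℚ) + 1)))) := by
    rw [← prod_mul_distrib]
    apply prod_congr rfl
    intro i hi
    have hi' := mem_range.1 hi
    rw [hq']
    have : ((h - 1 - i : ℕ) : ℚ) = h - 1 - i := by
      rw [Nat.cast_sub (by omega), Nat.cast_sub (by omega)]; simp
    rw [this]
    have : ((i : ℚ) + 1) ≠ 0 := by positivity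
    push_cast
    field_simp
    ring
  rw [e1, prod_range_reflect (fun i : ℕ => (-(2 * (i : ℚ) + 1))) h, ← prod_mul_distrib]
  have key : ∀ n : ℕ, (-4 : ℚ) ^ n * ∏ i ∈ range n, (-(2 * (i : ℚ) + 1)) * (1 / (2 * ((i : ℚ) + 1))) =
      ((2 * n).choose n : ℕ) := by
    intro n
    induction n with
    | zero => simp
    | succ n ih =>
      rw [prod_range_succ]
      have h3 := cb_rec n
      have hn : ((n : ℚ) + 1) ≠ 0 := by positivity
      apply mul_left_cancel₀ hn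
      rw [h3, ← ih, pow_succ]
      field_simp
      ring
  exact key h

/-- the central binomial coefficient modulo `p` -/
lemma cb_mod1 : I p 1 (((2 * h).choose h : ℚ) - (-1) ^ h) := by
  have h3 := cb_prod1 hp h2 hr hq h
  have h4 := (I.prod_sub hp (range h) (n := 1) (fun i => (1 - ((p : ℚ) ^ r) / ((i + 1 : ℕ) : ℚ))) (fun _ => 1)
    (fun i hi => by
      have hi' := mem_range.1 hi
      refine I.sub hp (by simpa using I.nat hp 1) ?_
      exact I.mono hp (by omega) (I_div hp h2 hr hq (i := i + 1) (by omega) (by omega)))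
    (fun i _ => by simpa using I.nat hp 1)
    (fun i hi => by
      have hi' := mem_range.1 hi
      have e : (1 - ((p : ℚ) ^ r) / ((i + 1 : ℕ) : ℚ)) - 1 = -(((p : ℚ) ^ r) / ((i + 1 : ℕ) : ℚ)) := by ring
      rw [e]
      exact I.neg hp (I_div hp h2 hr hq (i := i + 1) (by omega) (by omega)))).1
  rw [h3, prod_const_one] at h4
  have h5 : I p 0 (((-1 : ℤ) ^ h : ℤ) : ℚ) := I.int hp _
  have h6 := I.mul0 hp h5 h4
  have e : (((-1 : ℤ) ^ h : ℤ) : ℚ) * ((-1) ^ h * ((2 * h).choose h : ℕ) - 1) = ((2 * h).choose h : ℚ) - (-1) ^ h := by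
    have : ((-1 : ℚ) ^ h) * (-1) ^ h = 1 := by rw [← mul_pow]; norm_num
    push_cast
    linear_combination ((2 * h).choose h : ℚ) * this
  rwa [e] at h6

lemma cb_not_dvd : ¬ p ∣ (2 * h).choose h := by
  intro hd
  have h3 : I p 1 (((2 * h).choose h : ℕ) : ℚ) := I.of_dvd_nat hp (by simpa using hd)
  have h4 := I.sub hp h3 (cb_mod1 hp h2 hr hq)
  have e : (((2 * h).choose h : ℕ) : ℚ) - (((2 * h).choose h : ℚ) - (-1) ^ h) = (((-1) ^ h : ℤ) : ℚ) := by
    push_cast; ring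
  rw [e] at h4
  have h5 := I.dvd hp h4
  have h6 : (p : ℤ) ∣ 1 := by
    have := (prime_int hp).dvd_of_dvd_pow h5
    exact (dvd_neg).1 this
  have := Int.eq_one_of_dvd_one (by positivity) h6
  exact hp.one_lt.ne' (by exact_mod_cast this)

lemma I_cb_inv : I p 0 ((((2 * h).choose h : ℕ) : ℚ)⁻¹) := by
  have := I.inv (p := p) hp (z := ((2 * h).choose h : ℕ)) (by
    intro h3; exact cb_not_dvd hp h2 hr hq (by exact_mod_cast h3))
  simpa using this

/-- the central binomial coefficient modulo `p ^ 2` -/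
lemma cb_mod2 : I p 2 (((2 * h).choose h : ℚ) - (-1) ^ h * 4 ^ (2 * h)) := by
  have h3 := cb_prod1 hp h2 hr hq h
  have h3' := cb_prod2 hp h2 hr hq
  have h4 := (I.prod_sub hp (range h) (n := 2) (fun i => (1 - ((p : ℚ) ^ r) / ((i + 1 : ℕ) : ℚ)))
    (fun i => (1 - ((p : ℚ) ^ r) / ((i + 1 : ℕ) : ℚ) / 2) * (1 - ((p : ℚ) ^ r) / ((i + 1 : ℕ) : ℚ) / 2))
    (fun i hi => by
      have hi' := mem_range.1 hi
      refine I.sub hp (by simpa using I.nat hp 1) ?_
      exact I.mono hp (by omega) (I_div hp h2 hr hq (i := i + 1) (by omega) (by omega)))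
    (fun i hi => by
      have hi' := mem_range.1 hi
      have : I p 0 (1 - ((p : ℚ) ^ r) / ((i + 1 : ℕ) : ℚ) / 2) := by
        refine I.sub hp (by simpa using I.nat hp 1) ?_
        rw [div_eq_mul_inv _ (2 : ℚ)]
        have h7 := I.inv_two_pow hp h2 1
        rw [pow_one] at h7
        refine I.mul0 hp ?_ h7
        exact I.mono hp (by omega) (I_div hp h2 hr hq (i := i + 1) (by omega) (by omega))
      exact I.mul0 hp this this)
    (fun i hi => by
      have hi' := mem_range.1 hi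
      have e : (1 - ((p : ℚ) ^ r) / ((i + 1 : ℕ) : ℚ)) -
          (1 - ((p : ℚ) ^ r) / ((i + 1 : ℕ) : ℚ) / 2) * (1 - ((p : ℚ) ^ r) / ((i + 1 : ℕ) : ℚ) / 2) =
          -(((2 : ℚ) ^ 2)⁻¹ * (((p : ℚ) ^ r) / ((i + 1 : ℕ) : ℚ) * (((p : ℚ) ^ r) / ((i + 1 : ℕ) : ℚ)))) := by ring
      rw [e]
      have h8 := I_div hp h2 hr hq (i := i + 1) (by omega) (by omega)
      exact I.neg hp (I.mul0 hp (I.inv_two_pow hp h2 2) (I.mul hp h8 h8)))).1
  rw [prod_mul_distrib, h3] at h4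
  set c : ℚ := (((2 * h).choose h : ℕ) : ℚ) with hc
  set x := ∏ i ∈ range h, (1 - ((p : ℚ) ^ r) / ((i + 1 : ℕ) : ℚ) / 2) with hx
  have hc0 : c ≠ 0 := cb_ne h
  have h44 : (4 : ℚ) ^ h ≠ 0 := by positivity
  have e0 : ((-1 : ℚ) ^ h) * (-1) ^ h = 1 := by rw [← mul_pow]; norm_num
  have e1 : x = (-1) ^ h * c * ((4 : ℚ) ^ h)⁻¹ := by
    rw [← h3']
    rw [show (-4 : ℚ) ^ h = (-1) ^ h * 4 ^ h by rw [← mul_pow]; norm_num]
    field_simp
    linear_combination -x * e0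
  -- `c ε - x ^ 2`, multiplied by the unit `ε 4 ^ (2 h) / c`
  have hu : I p 0 ((((-1 : ℤ) ^ h * 4 ^ (2 * h) : ℤ) : ℚ) * c⁻¹) :=
    I.mul0 hp (I.int hp _) (I_cb_inv hp h2 hr hq)
  have h9 := I.neg hp (I.mul0 hp hu h4)
  have e2 : -((((-1 : ℤ) ^ h * 4 ^ (2 * h) : ℤ) : ℚ) * c⁻¹ * ((-1) ^ h * c - x * x)) =
      (-1) ^ h * c - 4 ^ (2 * h) := by
    rw [e1]
    push_cast
    rw [show (4 : ℚ) ^ (2 * h) = 4 ^ h * 4 ^ h by rw [two_mul, pow_add]]
    field_simp
    linear_combination (-(4 : ℚ) ^ h * 4 ^ h + (-1) ^ h * c) * e0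
  rw [e2] at h9
  have h10 := I.mul0 hp (I.int hp ((-1) ^ h)) h9
  have e3 : (((-1 : ℤ) ^ h : ℤ) : ℚ) * ((-1) ^ h * c - 4 ^ (2 * h)) = c - (-1) ^ h * 4 ^ (2 * h) := by
    push_cast
    linear_combination c * e0
  rwa [e3] at h10

lemma cb_q : I p 2 ((((2 * p ^ r).choose (p ^ r) : ℕ) : ℚ) - 2) := by
  have h3 := Nat.sum_range_choose_sq (p ^ r)
  have hq1 : 1 ≤ p ^ r := Nat.one_le_pow _ _ hp.pos
  rw [sum_range_succ, show range (p ^ r) = range ((p ^ r - 1) + 1) by rw [Nat.sub_add_cancel hq1],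
    sum_range_succ'] at h3
  have h4 : (((2 * p ^ r).choose (p ^ r) : ℕ) : ℚ) - 2 =
      ∑ k ∈ range (p ^ r - 1), ((((p ^ r).choose (k + 1) : ℕ) : ℚ) * (((p ^ r).choose (k + 1) : ℕ) : ℚ)) := by
    have : (((2 * p ^ r).choose (p ^ r) : ℕ) : ℚ) = ((∑ k ∈ range (p ^ r - 1), (p ^ r).choose (k + 1) ^ 2 +
        (p ^ r).choose 0 ^ 2 + (p ^ r).choose (p ^ r) ^ 2 : ℕ) : ℚ) := by
      rw [h3]
    rw [this]
    push_cast
    simp only [Nat.choose_zero_right, Nat.choose_self, sq]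
    push_cast
    ring
  rw [h4]
  apply I.sum hp
  intro k hk
  have hk' := mem_range.1 hk
  have h5 : p ∣ (p ^ r).choose (k + 1) := hp.dvd_choose_pow (by omega) (by omega)
  have h6 : I p 1 (((p ^ r).choose (k + 1) : ℕ) : ℚ) := I.of_dvd_nat hp (by simpa using h5)
  exact I.mul hp h6 h6

/-- the main term -/
lemma main_term : I p (r + 2) (F (h + 1) h + (-1) ^ h * (p : ℚ) ^ r) := by
  have hq' : (p : ℚ) ^ r = 2 * h + 1 := by exact_mod_cast hq
  have hc := cb_mod2 hp h2 hr hq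
  have hc2 := cb_q hp h2 hr hq
  set c : ℚ := (((2 * h).choose h : ℕ) : ℚ) with hcdef
  have hc0 : c ≠ 0 := cb_ne h
  set C : ℚ := (((2 * p ^ r).choose (p ^ r) : ℕ) : ℚ) with hCdef
  have hh : ((h : ℚ) + 1) ≠ 0 := by positivity
  have h2h : (2 * (h : ℚ) + 1) ≠ 0 := by positivity
  have h44 : (4 : ℚ) ^ h ≠ 0 := by positivity
  have hb : b (h + 1) = - 2 * c / ((h + 1) * 4 ^ (h + 1)) := by
    have h3 := b_eq (h + 1)
    have h4 := cb_rec h
    rw [← hcdef] at h4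
    have h5 : (((2 * (h + 1)).choose (h + 1) : ℕ) : ℚ) = 2 * (2 * h + 1) * c / (h + 1) := by
      field_simp; linarith
    rw [h5] at h3
    push_cast at h3
    have h6 : (2 * (h : ℚ) + 1) * b (h + 1) = (2 * h + 1) * (- 2 * c / ((h + 1) * 4 ^ (h + 1))) := by
      rw [show (2 * ((h : ℚ) + 1) - 1) = 2 * h + 1 by ring] at h3
      rw [h3]; field_simp
    exact mul_left_cancel₀ h2h h6
  have hW : W (h + 1) h = C * (2 * h + 1) / (4 * c) := by
    unfold W
    rw [show h + 1 + h = 2 * h + 1 by ring, ← hq, ← hCdef, ← hcdef]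
    rw [hq, Nat.choose_succ_self_right (2 * h)]
    push_cast
    rw [pow_succ]
    field_simp
  have hF : F (h + 1) h + (-1) ^ h * (p : ℚ) ^ r =
      (p : ℚ) ^ r * ((((h + 1 : ℕ) : ℚ) ^ 2)⁻¹ * ((2 : ℚ) ^ 3)⁻¹ * ((4 : ℚ) ^ (2 * h))⁻¹ *
        ((-1) ^ h * 4 ^ (2 * h) * (2 * ((p : ℚ) ^ r * (p : ℚ) ^ r)) -
          (2 * (p : ℚ) ^ r + 1) * (c - (-1) ^ h * 4 ^ (2 * h)) * C -
          (2 * (p : ℚ) ^ r + 1) * ((-1) ^ h * 4 ^ (2 * h)) * (C - 2))) := by
    unfold F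
    rw [hb, hW, hq']
    rw [show h + 1 + h = 2 * h + 1 by ring, pow_succ (-1 : ℚ) (2 * h), pow_mul (-1 : ℚ) 2 h,
      show (4 : ℚ) ^ (2 * h) = 4 ^ h * 4 ^ h by rw [two_mul, pow_add], pow_succ (4 : ℚ) h]
    push_cast
    field_simp
    ring
  rw [hF]
  have hp1 := I.pow hp r
  refine I.mul hp hp1 ?_
  have hhu : I p 0 ((((h + 1 : ℕ) : ℚ) ^ 2)⁻¹) := by
    have : ¬ (p : ℤ) ∣ (((h + 1 : ℕ) : ℤ) ^ 2) := by
      intro hd
      have h3 := (prime_int hp).dvd_of_dvd_pow hd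
      have h4 : p ∣ h + 1 := by exact_mod_cast h3
      have h5 : p ∣ p ^ r := dvd_pow_self p (by omega)
      rw [hq] at h5
      have h6 : p ∣ 2 * (h + 1) - (2 * h + 1) := Nat.dvd_sub (dvd_mul_of_dvd_right h4 2) h5
      rw [show 2 * (h + 1) - (2 * h + 1) = 1 by omega] at h6
      exact hp.one_lt.ne' (Nat.dvd_one.1 h6)
    have := I.inv (p := p) hp this
    simpa using this
  have hu : I p 0 ((((h + 1 : ℕ) : ℚ) ^ 2)⁻¹ * ((2 : ℚ) ^ 3)⁻¹ * ((4 : ℚ) ^ (2 * h))⁻¹) :=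
    I.mul0 hp (I.mul0 hp hhu (I.inv_two_pow hp h2 3)) (I.inv_four_pow hp h2 _)
  refine I.mul0 hp hu ?_
  have he : I p 0 ((-1 : ℚ) ^ h * 4 ^ (2 * h)) := by
    have := I.int hp ((-1) ^ h * 4 ^ (2 * h))
    simpa using this
  have hpq : I p 1 ((p : ℚ) ^ r) := I.mono hp hr hp1
  have hk : I p 0 (2 * (p : ℚ) ^ r + 1) := by
    have := I.nat hp (2 * p ^ r + 1)
    simpa using this
  have hC0 : I p 0 C := I.nat hp _
  refine I.sub hp (I.sub hp ?_ ?_) ?_
  · refine I.mul0 hp he (I.mul0 hp (by simpa using I.nat hp 2) (I.mul hp hpq hpq))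
  · have := I.mul hp (I.mul0 hp hk hc) hC0
    simpa using this
  · exact I.mul0 hp (I.mul0 hp hk he) hc2

/-- dividing by `choose (2 j) j`, `j ≤ h` -/
lemma I_div_cb {j n : ℕ} (hj : j ≤ h) {x : ℚ} (hx : I p (n + (r - 1)) x) :
    I p n (x / (((2 * j).choose j : ℕ) : ℚ)) := by
  have h0 : (2 * j).choose j ≠ 0 := (Nat.choose_pos (by omega)).ne'
  refine I.div_nat hp h0 ?_ hx
  have h3 := Nat.factorization_choose_le_log (p := p) (n := 2 * j) (k := j)
  have h4 : Nat.log p (2 * j) < r := by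
    rcases Nat.eq_zero_or_pos j with h5 | h5
    · subst h5; simp; omega
    · exact Nat.log_lt_of_lt_pow (by omega) (by omega)
  omega

lemma I_W {n j s : ℕ} (hj : j ≤ h)
    (hd : I p (s + (r - 1)) ((((2 * (n + j)).choose (n + j) : ℕ) : ℚ) * ((n + j).choose (2 * j) : ℕ))) :
    I p s (W n j) := by
  unfold W
  have e : (4 : ℚ) ^ j / 4 ^ n * ((2 * (n + j)).choose (n + j) : ℕ) * ((n + j).choose (2 * j) : ℕ) /
    ((2 * j).choose j : ℕ) = (4 ^ j * ((4 : ℚ) ^ n)⁻¹) *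
      (((((2 * (n + j)).choose (n + j) : ℕ) : ℚ) * ((n + j).choose (2 * j) : ℕ)) /
    ((2 * j).choose j : ℕ)) := by ring
  rw [e]
  refine I.mul0 hp (I.mul0 hp (by simpa using I.nat hp (4 ^ j)) (I.inv_four_pow hp h2 _)) ?_
  exact I_div_cb hp h2 hr hq hj hd

end

end Pool.Agent.Helper62K9.SC
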