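import Pool.Agent.Helper62K9.SC.Cong

set_option autoImplicit false
set_option linter.unusedSectionVars false

/-!
# The congruences for the exponent `1`, conclusion
-/

namespace Pool.Agent.Helper62K9.SC

open Finset

section
variable {p : ℕ} (hp : p.Prime) (h2 : p ≠ 2) {r h : ℕ} (hr : 1 ≤ r) (hq : p ^ r = 2 * h + 1)
include hp h2 hr hq

lemma G_A {j : ℕ} (hj : j ≤ h) : I p (r + 2) (G (h + 1) j) := by
  have hq' : (p : ℚ) ^ r = 2 * h + 1 := by exact_mod_cast hq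
  unfold G
  apply I.neg hp
  have e : (-1 : ℚ) ^ (h + 1 + j) * (2 * ((h + 1 : ℕ) : ℚ) - 1) ^ 2 * b (h + 1) ^ 2 * W (h + 1) j =
      ((-1 : ℚ) ^ (h + 1 + j) * (b (h + 1) * b (h + 1))) * ((p : ℚ) ^ r * (p : ℚ) ^ r * W (h + 1) j) := by
    rw [hq']; push_cast; ring
  rw [e]
  refine I.mul0 hp (I.mul0 hp (by simpa using I.int hp ((-1) ^ (h + 1 + j)))
    (I.mul0 hp (I_b hp h2 _) (I_b hp h2 _))) ?_
  have hpr := I.pow hp r
  rcases hj.lt_or_eq with hj' | hj'
  · -- p divides the first binomial coefficient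
    have hd : p ∣ (2 * (h + 1 + j)).choose (h + 1 + j) := by
      have := dvd_choose hp (r := r) (a := h + 1 + j) (c := h + 1 + j) (by omega) (by omega) (by omega)
      rwa [← two_mul] at this
    by_cases hr2 : r = 1
    · have hW : I p 1 (W (h + 1) j) := by
        apply I_W hp h2 hr hq hj
        subst hr2
        have h3 : I p 1 (((2 * (h + 1 + j)).choose (h + 1 + j) : ℕ) : ℚ) := I.of_dvd_nat hp (by simpa using hd)
        have := I.mul hp h3 (I.nat hp ((h + 1 + j).choose (2 * j)))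
        simpa using this
      have := I.mul hp (I.mul hp hpr hpr) hW
      exact I.mono hp (by omega) this
    · -- multiply by `p ^ (r - 2)` first
      have hW : I p 0 ((p : ℚ) ^ (r - 2) * W (h + 1) j) := by
        have h3 : I p 1 (((2 * (h + 1 + j)).choose (h + 1 + j) : ℕ) : ℚ) := I.of_dvd_nat hp (by simpa using hd)
        have h4 := I.mul hp (I.pow hp (r - 2)) (I.mul hp h3 (I.nat hp ((h + 1 + j).choose (2 * j))))
        have h5 : I p (0 + (r - 1)) ((p : ℚ) ^ (r - 2) * ((((2 * (h + 1 + j)).choose (h + 1 + j) : ℕ) : ℚ) *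
          ((h + 1 + j).choose (2 * j) : ℕ))) := I.mono hp (by omega) h4
        have h6 := I_div_cb hp h2 hr hq hj h5
        unfold W
        have e : (p : ℚ) ^ (r - 2) * ((4 : ℚ) ^ j / 4 ^ (h + 1) * ((2 * (h + 1 + j)).choose (h + 1 + j) : ℕ) *
          ((h + 1 + j).choose (2 * j) : ℕ) / ((2 * j).choose j : ℕ)) = (4 ^ j * ((4 : ℚ) ^ (h + 1))⁻¹) *
          (((p : ℚ) ^ (r - 2) * ((((2 * (h + 1 + j)).choose (h + 1 + j) : ℕ) : ℚ) *
          ((h + 1 + j).choose (2 * j) : ℕ))) / ((2 * j).choose j : ℕ)) := by ring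
        rw [e]
        exact I.mul0 hp (I.mul0 hp (by simpa using I.nat hp (4 ^ j)) (I.inv_four_pow hp h2 _)) h6
      have e2 : (p : ℚ) ^ r * (p : ℚ) ^ r * W (h + 1) j =
          (p : ℚ) ^ (r + 2) * ((p : ℚ) ^ (r - 2) * W (h + 1) j) := by
        have : (p : ℚ) ^ r * (p : ℚ) ^ r = (p : ℚ) ^ (r + 2) * (p : ℚ) ^ (r - 2) := by
          rw [← pow_add, ← pow_add]; congr 1; omega
        rw [this]; ring
      rw [e2]
      have := I.mul hp (I.pow hp (r + 2)) hW
      simpa using this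
  · subst hj'
    have hW : I p 1 (W (j + 1) j) := by
      apply I_W hp h2 hr hq le_rfl
      have h3 : I p r (((j + 1 + j).choose (2 * j) : ℕ) : ℚ) := by
        rw [show j + 1 + j = 2 * j + 1 by ring, Nat.choose_succ_self_right, ← hq]
        simpa using I.pow hp r
      have := I.mul0 hp (I.nat hp ((2 * (j + 1 + j)).choose (j + 1 + j))) h3
      rwa [show 1 + (r - 1) = r by omega]
    have := I.mul hp (I.mul hp hpr hpr) hW
    exact I.mono hp (by omega) this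

lemma G_B {j : ℕ} (hj : j ≤ h) : I p (r + 2) (G (2 * h) j) := by
  have hq' : (p : ℚ) ^ r = 2 * h + 1 := by exact_mod_cast hq
  have hh := h_pos hp h2 hr hq
  unfold G
  apply I.neg hp
  have hb := b_succ (2 * h)
  have e : (-1 : ℚ) ^ (2 * h + j) * (2 * ((2 * h : ℕ) : ℚ) - 1) ^ 2 * b (2 * h) ^ 2 * W (2 * h) j =
      ((-1 : ℚ) ^ (2 * h + j) * 4 * (b (2 * h + 1) * b (2 * h + 1))) * ((p : ℚ) ^ r * (p : ℚ) ^ r * W (2 * h) j) := by
    have : (2 * ((2 * h : ℕ) : ℚ) - 1) ^ 2 * b (2 * h) ^ 2 = (2 * (((2 * h : ℕ) : ℚ) + 1) * b (2 * h + 1)) ^ 2 := by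
      rw [hb]; ring
    rw [mul_assoc ((-1 : ℚ) ^ (2 * h + j)), this, hq']; push_cast; ring
  rw [e]
  refine I.mul0 hp (I.mul0 hp (by simpa using I.int hp ((-1) ^ (2 * h + j) * 4))
    (I.mul0 hp (I_b hp h2 _) (I_b hp h2 _))) ?_
  have hpr := I.pow hp r
  have hd : I p 1 ((((2 * (2 * h + j)).choose (2 * h + j) : ℕ) : ℚ) * ((2 * h + j).choose (2 * j) : ℕ)) := by
    rcases Nat.eq_zero_or_pos j with hj0 | hj0
    · subst hj0
      have hd : p ∣ (2 * (2 * h)).choose (2 * h) := by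
        have := dvd_choose hp (r := r) (a := 2 * h) (c := 2 * h) (by omega) (by omega) (by omega)
        rwa [← two_mul] at this
      have h3 : I p 1 (((2 * (2 * h)).choose (2 * h) : ℕ) : ℚ) := I.of_dvd_nat hp (by simpa using hd)
      simpa using h3
    · have hd : p ∣ (2 * h + j).choose (2 * j) := by
        have := dvd_choose hp (r := r) (a := 2 * j) (c := 2 * h - j) (by omega) (by omega) (by omega)
        rwa [show 2 * j + (2 * h - j) = 2 * h + j by omega] at this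
      have h3 : I p 1 (((2 * h + j).choose (2 * j) : ℕ) : ℚ) := I.of_dvd_nat hp (by simpa using hd)
      exact I.mul0 hp (I.nat hp _) h3
  by_cases hr2 : r = 1
  · have hW : I p 1 (W (2 * h) j) := by
      apply I_W hp h2 hr hq hj
      subst hr2
      simpa using hd
    have := I.mul hp (I.mul hp hpr hpr) hW
    exact I.mono hp (by omega) this
  · have hW : I p 0 ((p : ℚ) ^ (r - 2) * W (2 * h) j) := by
      have h4 := I.mul hp (I.pow hp (r - 2)) hd
      have h5 : I p (0 + (r - 1)) ((p : ℚ) ^ (r - 2) * ((((2 * (2 * h + j)).choose (2 * h + j) : ℕ) : ℚ) *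
        ((2 * h + j).choose (2 * j) : ℕ))) := I.mono hp (by omega) h4
      have h6 := I_div_cb hp h2 hr hq hj h5
      unfold W
      have e : (p : ℚ) ^ (r - 2) * ((4 : ℚ) ^ j / 4 ^ (2 * h) * ((2 * (2 * h + j)).choose (2 * h + j) : ℕ) *
        ((2 * h + j).choose (2 * j) : ℕ) / ((2 * j).choose j : ℕ)) = (4 ^ j * ((4 : ℚ) ^ (2 * h))⁻¹) *
        (((p : ℚ) ^ (r - 2) * ((((2 * (2 * h + j)).choose (2 * h + j) : ℕ) : ℚ) *
        ((2 * h + j).choose (2 * j) : ℕ))) / ((2 * j).choose j : ℕ)) := by ring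
      rw [e]
      exact I.mul0 hp (I.mul0 hp (by simpa using I.nat hp (4 ^ j)) (I.inv_four_pow hp h2 _)) h6
    have e2 : (p : ℚ) ^ r * (p : ℚ) ^ r * W (2 * h) j =
        (p : ℚ) ^ (r + 2) * ((p : ℚ) ^ (r - 2) * W (2 * h) j) := by
      have : (p : ℚ) ^ r * (p : ℚ) ^ r = (p : ℚ) ^ (r + 2) * (p : ℚ) ^ (r - 2) := by
        rw [← pow_add, ← pow_add]; congr 1; omega
      rw [this]; ring
    rw [e2]
    have := I.mul hp (I.pow hp (r + 2)) hW
    simpa using this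

lemma F_B {n : ℕ} (h1 : h + 1 < n) (h3 : n ≤ 2 * h) : I p (r + 2) (F n h) := by
  have hq' : (p : ℚ) ^ r = 2 * h + 1 := by exact_mod_cast hq
  obtain ⟨m, rfl⟩ : ∃ m, n = m + 1 := ⟨n - 1, by omega⟩
  have hd : ∀ m, h < m → m ≤ 2 * h → p ∣ (2 * m).choose m := by
    intro m h4 h5
    have := dvd_choose hp (r := r) (a := m) (c := m) (by omega) (by omega) (by omega)
    rwa [← two_mul] at this
  have hb := I_b_one hp h2 (hd (m + 1) (by omega) h3) (hd m (by omega) (by omega))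
  have hrec := choose_rec2 (m + 1 + h) (2 * h)
  have e : F (m + 1) h = (2 * (-1) ^ (m + 1 + h) * (4 * ((m + 1 : ℕ) : ℚ) - 1)) *
      ((4 : ℚ) ^ h * ((4 : ℚ) ^ (m + 1))⁻¹ * ((((2 * h).choose h : ℕ) : ℚ)⁻¹) *
      (((2 * (m + 1 + h)).choose (m + 1 + h) : ℕ) : ℚ) * ((m + 1 + h).choose (2 * h + 1) : ℕ)) *
      ((p : ℚ) ^ r * (b (m + 1) * b (m + 1))) := by
    unfold F W
    rw [hq']
    have hcb := cb_ne h
    have h44 : (4 : ℚ) ^ (m + 1) ≠ 0 := by positivity
    push_cast at hrec ⊢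
    field_simp
    linear_combination (-((4 * ((m : ℚ) + 1) - 1)) * b (m + 1) ^ 2 * (((2 * (m + 1 + h)).choose (m + 1 + h) : ℕ) : ℚ)) * hrec
  rw [e]
  have h5 := I.mul hp (I.pow hp r) (I.mul hp hb hb)
  refine I.mul0 hp (I.mul0 hp ?_ ?_) h5
  · have := I.int hp (2 * (-1) ^ (m + 1 + h) * (4 * ((m + 1 : ℕ) : ℤ) - 1))
    simpa using this
  · refine I.mul0 hp (I.mul0 hp (I.mul0 hp (I.mul0 hp ?_ (I.inv_four_pow hp h2 _)) (I_cb_inv hp h2 hr hq)) (I.nat hp _))
      (I.nat hp _)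
    simpa using I.nat hp (4 ^ h)

/-- The congruence for the first truncation. -/
lemma S_A : I p (r + 2) (S 1 (h + 1) + (-1) ^ h * (p : ℚ) ^ r) := by
  rw [S_eq (h + 1) h, sum_range_succ (fun n => F n h)]
  have h0 : ∑ n ∈ range (h + 1), F n h = 0 := by
    apply sum_eq_zero
    intro n hn
    exact F_zero (by have := mem_range.1 hn; omega)
  rw [h0]
  have e : 0 + F (h + 1) h + ∑ j ∈ range (h + 1), G (h + 1) j + (-1) ^ h * (p : ℚ) ^ r =
      (F (h + 1) h + (-1) ^ h * (p : ℚ) ^ r) + ∑ j ∈ range (h + 1), G (h + 1) j := by ring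
  rw [e]
  refine I.add hp (main_term hp h2 hr hq) (I.sum hp _ _ fun j hj => ?_)
  exact G_A hp h2 hr hq (by have := mem_range.1 hj; omega)

/-- The congruence for the second truncation. -/
lemma S_B : I p (r + 2) (S 1 (2 * h) + (-1) ^ h * (p : ℚ) ^ r) := by
  have hh := h_pos hp h2 hr hq
  rw [S_eq (2 * h) h]
  have h0 : ∑ n ∈ range (2 * h + 1), F n h = F (h + 1) h + ∑ n ∈ Ico (h + 2) (2 * h + 1), F n h := by
    rw [range_eq_Ico, ← sum_Ico_consecutive _ (Nat.zero_le (h + 1)) (by omega)]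
    have h1 : ∑ n ∈ Ico 0 (h + 1), F n h = 0 := by
      apply sum_eq_zero
      intro n hn
      exact F_zero (by have := (mem_Ico.1 hn).2; omega)
    rw [h1, zero_add, sum_eq_sum_Ico_succ_bot (by omega)]
  rw [h0]
  have e : F (h + 1) h + ∑ n ∈ Ico (h + 2) (2 * h + 1), F n h + ∑ j ∈ range (h + 1), G (2 * h) j + (-1) ^ h * (p : ℚ) ^ r =
      (F (h + 1) h + (-1) ^ h * (p : ℚ) ^ r) + ∑ n ∈ Ico (h + 2) (2 * h + 1), F n h +
        ∑ j ∈ range (h + 1), G (2 * h) j := by ring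
  rw [e]
  refine I.add hp (I.add hp (main_term hp h2 hr hq) (I.sum hp _ _ fun n hn => ?_)) (I.sum hp _ _ fun j hj => ?_)
  · have := mem_Ico.1 hn
    exact F_B hp h2 hr hq (by omega) (by omega)
  · exact G_B hp h2 hr hq (by have := mem_range.1 hj; omega)

lemma B_A : I p (r + 2) (B (h + 1)) := by
  have hq' : (p : ℚ) ^ r = 2 * h + 1 := by exact_mod_cast hq
  have hb := b_succ (h + 1)
  have e : B (h + 1) = (-1) ^ (h + 1) * ((2 : ℚ) ^ 3)⁻¹ * ((p : ℚ) ^ r * b (h + 1)) ^ 3 := by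
    unfold B
    have : (2 * (((h + 1 : ℕ) : ℚ) + 1) * b (h + 1 + 1)) ^ 3 = ((p : ℚ) ^ r * b (h + 1)) ^ 3 := by
      rw [hb, hq']; push_cast; ring
    rw [← this]
    field_simp
  rw [e]
  refine I.mul0 hp (I.mul0 hp (by simpa using I.int hp ((-1) ^ (h + 1))) (I.inv_two_pow hp h2 3)) ?_
  have h3 := I.mul hp (I.pow hp r) (I_b hp h2 (h + 1))
  exact I.mono hp (by omega) (I.pow_mul hp h3 3)

lemma B_B : I p (r + 2) (B (2 * h)) := by
  have hq' : (p : ℚ) ^ r = 2 * h + 1 := by exact_mod_cast hq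
  have e : B (2 * h) = (-1) ^ (2 * h) * ((p : ℚ) ^ r * b (2 * h + 1)) ^ 3 := by
    unfold B
    rw [hq']
    push_cast; ring
  rw [e]
  refine I.mul0 hp (by simpa using I.int hp ((-1) ^ (2 * h))) ?_
  have h3 := I.mul hp (I.pow hp r) (I_b hp h2 (2 * h + 1))
  exact I.mono hp (by omega) (I.pow_mul hp h3 3)

lemma S_cong (i N : ℕ) (hN : N = h + 1 ∨ N = 2 * h) :
    I p (r + 2) (S (2 * i + 1) N - cst i * ((p : ℚ) ^ r * (-1) ^ h)) := by
  obtain ⟨g, hg⟩ := S_red i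
  have h1 : I p (r + 2) (S 1 N + (-1) ^ h * (p : ℚ) ^ r) := by
    rcases hN with h | h
    · subst h; exact S_A hp h2 hr hq
    · subst h; exact S_B hp h2 hr hq
  have h3 : I p (r + 2) (B N) := by
    rcases hN with h | h
    · subst h; exact B_A hp h2 hr hq
    · subst h; exact B_B hp h2 hr hq
  have e : S (2 * i + 1) N - cst i * ((p : ℚ) ^ r * (-1) ^ h) =
      ((-cst i : ℤ) : ℚ) * (S 1 N + (-1) ^ h * (p : ℚ) ^ r) + ((32 * g N : ℤ) : ℚ) * B N := by
    rw [hg N]; push_cast; ring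
  rw [e]
  exact I.add hp (I.mul0 hp (I.int hp _) h1) (I.mul0 hp (I.int hp _) h3)

end

end Pool.Agent.Helper62K9.SC
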