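import Pool.Agent.Helper62K9.SC.WZ

set_option autoImplicit false
set_option linter.unusedSectionVars false

/-!
# Reduction of the exponent `m` to `1`
-/

namespace Pool.Agent.Helper62K9.SC

open Finset

lemma sum_even_odd (j : ℕ) (f : ℕ → ℚ) : ∑ i ∈ range (2 * j + 1), f i =
    ∑ s ∈ range (j + 1), f (2 * s) + ∑ s ∈ range j, f (2 * s + 1) := by
  induction j with
  | zero => simp
  | succ j ih =>
    rw [show 2 * (j + 1) + 1 = (2 * j + 1) + 1 + 1 by ring, sum_range_succ, sum_range_succ, ih,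
      sum_range_succ (fun s => f (2 * s)) (j + 1), sum_range_succ (fun s => f (2 * s + 1)) j]
    rw [show 2 * (j + 1) = 2 * j + 1 + 1 by ring]
    ring

lemma pow_expand (x y : ℚ) (j : ℕ) : (x + y) ^ (2 * j) =
    ∑ s ∈ range (j + 1), x ^ (2 * (j - s)) * y ^ (2 * s) * ((2 * j).choose (2 * s) : ℕ) +
    ∑ s ∈ range j, x ^ (2 * (j - s) - 1) * y ^ (2 * s + 1) * ((2 * j).choose (2 * s + 1) : ℕ) := by
  rw [add_comm x y, add_pow, sum_even_odd]
  congr 1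
  · apply sum_congr rfl
    intro s hs
    rw [show 2 * j - 2 * s = 2 * (j - s) by omega]
    ring
  · apply sum_congr rfl
    intro s hs
    rw [show 2 * j - (2 * s + 1) = 2 * (j - s) - 1 by omega]
    ring

/-- the odd polynomial which sums to a boundary term -/
lemma odd_poly (x : ℚ) (j : ℕ) : (x - 1) ^ 3 * (x + 2) ^ (2 * j) + (x + 1) ^ 3 * (x - 2) ^ (2 * j) =
    2 * (x ^ (2 * (j + 1) + 1) + 3 * x ^ (2 * j + 1) +
      ∑ s ∈ range j, (((2 * j).choose (2 * s + 2) : ℕ) * 4 ^ (s + 1) *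
          (x ^ (2 * (j - s) + 1) + 3 * x ^ (2 * (j - s - 1) + 1)) -
        ((2 * j).choose (2 * s + 1) : ℕ) * 2 ^ (2 * s + 1) *
          (3 * x ^ (2 * (j - s) + 1) + x ^ (2 * (j - s - 1) + 1)))) := by
  have h1 := pow_expand x 2 j
  have h2 := pow_expand x (-2) j
  rw [← sub_eq_add_neg] at h2
  rw [h1, h2]
  have e1 : ∑ s ∈ range (j + 1), x ^ (2 * (j - s)) * (-2 : ℚ) ^ (2 * s) * ((2 * j).choose (2 * s) : ℕ) =
      ∑ s ∈ range (j + 1), x ^ (2 * (j - s)) * (2 : ℚ) ^ (2 * s) * ((2 * j).choose (2 * s) : ℕ) := by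
    apply sum_congr rfl
    intro s _
    rw [pow_mul (-2 : ℚ), pow_mul (2 : ℚ)]; norm_num
  have e2 : ∑ s ∈ range j, x ^ (2 * (j - s) - 1) * (-2 : ℚ) ^ (2 * s + 1) * ((2 * j).choose (2 * s + 1) : ℕ) =
      - ∑ s ∈ range j, x ^ (2 * (j - s) - 1) * (2 : ℚ) ^ (2 * s + 1) * ((2 * j).choose (2 * s + 1) : ℕ) := by
    rw [← sum_neg_distrib]
    apply sum_congr rfl
    intro s _
    rw [pow_succ (-2 : ℚ), pow_mul (-2 : ℚ), pow_succ (2 : ℚ), pow_mul (2 : ℚ)]; norm_num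
  rw [e1, e2]
  have e3 : ∑ s ∈ range (j + 1), x ^ (2 * (j - s)) * (2 : ℚ) ^ (2 * s) * ((2 * j).choose (2 * s) : ℕ) =
      x ^ (2 * j) + ∑ s ∈ range j, x ^ (2 * (j - s - 1)) * (4 : ℚ) ^ (s + 1) * ((2 * j).choose (2 * s + 2) : ℕ) := by
    rw [sum_range_succ']
    simp only [Nat.sub_zero, mul_zero, pow_zero, Nat.choose_zero_right, Nat.cast_one, mul_one]
    rw [add_comm]
    congr 1
    apply sum_congr rfl
    intro s _
    rw [show j - (s + 1) = j - s - 1 by omega, show 2 * (s + 1) = 2 * s + 2 by ring]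
    rw [show (2 : ℚ) ^ (2 * s + 2) = 4 ^ (s + 1) by
      rw [show 2 * s + 2 = 2 * (s + 1) by ring, pow_mul]; norm_num]
  rw [e3]
  have e4 : ∀ A B : ℚ, (x - 1) ^ 3 * (x ^ (2 * j) + A + B) + (x + 1) ^ 3 * (x ^ (2 * j) + A + -B) =
      2 * (x ^ (2 * (j + 1) + 1) + 3 * x ^ (2 * j + 1) + ((x ^ 3 + 3 * x) * A - (3 * x ^ 2 + 1) * B)) := by
    intro A B; ring
  rw [e4, mul_sum, mul_sum, ← sum_sub_distrib]
  congr 2
  apply sum_congr rfl
  intro s hs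
  obtain ⟨t, ht⟩ : ∃ t, j - s = t + 1 := ⟨j - s - 1, by have := mem_range.1 hs; omega⟩
  rw [ht]
  simp only [Nat.add_sub_cancel]
  rw [show 2 * (t + 1) - 1 = 2 * t + 1 by omega]
  ring

/-- the constants: `cst i` belongs to the exponent `2 i + 1` -/
def cst : ℕ → ℤ
  | 0 => -1
  | j + 1 => -3 * cst j + ∑ s : Fin j,
      (((2 * j).choose (2 * s + 1) : ℤ) * 2 ^ (2 * (s : ℕ) + 1) *
        (3 * cst (j - s) + cst (j - s - 1)) -
      ((2 * j).choose (2 * s + 2) : ℤ) * 4 ^ ((s : ℕ) + 1) *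
        (cst (j - s) + 3 * cst (j - s - 1)))
decreasing_by all_goals omega

/-- the boundary term -/
def B (N : ℕ) : ℚ := (-1) ^ N * (N + 1) ^ 3 * b (N + 1) ^ 3

lemma sum_boundary (j N : ℕ) : ∑ k ∈ range (N + 1), (-1) ^ k *
    ((4 * (k : ℚ) - 1 - 1) ^ 3 * (4 * (k : ℚ) - 1 + 2) ^ (2 * j) +
      (4 * (k : ℚ) - 1 + 1) ^ 3 * (4 * (k : ℚ) - 1 - 2) ^ (2 * j)) * b k ^ 3 =
    64 * (4 * N + 1) ^ (2 * j) * B N := by
  induction N with
  | zero =>
    have h := b_succ 0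
    rw [b_zero] at h
    have hb : b 1 = -1 / 2 := by norm_num at h ⊢; linarith
    simp only [zero_add, sum_range_one, B, hb, b_zero]
    norm_num
  | succ N ih =>
    rw [sum_range_succ, ih]
    have h := b_succ (N + 1)
    unfold B
    push_cast at h ⊢
    have h3 : 8 * ((N : ℚ) + 1 + 1) ^ 3 * b (N + 1 + 1) ^ 3 = (2 * N + 1) ^ 3 * b (N + 1) ^ 3 := by
      have : (2 * ((N : ℚ) + 1 + 1) * b (N + 1 + 1)) ^ 3 = ((2 * ((N : ℚ) + 1) - 1) * b (N + 1)) ^ 3 := by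
        rw [h]
      linear_combination this
    rw [pow_succ (-1 : ℚ) N]
    rw [show (4 * ((N : ℚ) + 1) - 1 + 2) = 4 * (N + 1) + 1 by ring,
      show (4 * ((N : ℚ) + 1) - 1 - 2) = 4 * N + 1 by ring]
    linear_combination (8 * (-1) ^ N * (4 * ((N : ℚ) + 1) + 1) ^ (2 * j)) * h3

lemma S_rec (j N : ℕ) : S (2 * (j + 1) + 1) N = 32 * (4 * N + 1) ^ (2 * j) * B N - 3 * S (2 * j + 1) N +
    ∑ s ∈ range j, (((2 * j).choose (2 * s + 1) : ℕ) * 2 ^ (2 * s + 1) *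
          (3 * S (2 * (j - s) + 1) N + S (2 * (j - s - 1) + 1) N) -
      ((2 * j).choose (2 * s + 2) : ℕ) * 4 ^ (s + 1) *
          (S (2 * (j - s) + 1) N + 3 * S (2 * (j - s - 1) + 1) N)) := by
  have h := sum_boundary j N
  have e : ∀ k ∈ range (N + 1), (-1 : ℚ) ^ k *
    ((4 * (k : ℚ) - 1 - 1) ^ 3 * (4 * (k : ℚ) - 1 + 2) ^ (2 * j) +
      (4 * (k : ℚ) - 1 + 1) ^ 3 * (4 * (k : ℚ) - 1 - 2) ^ (2 * j)) * b k ^ 3 =
      2 * ((-1) ^ k * (4 * (k : ℚ) - 1) ^ (2 * (j + 1) + 1) * b k ^ 3 +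
        3 * ((-1) ^ k * (4 * (k : ℚ) - 1) ^ (2 * j + 1) * b k ^ 3) +
        ∑ s ∈ range j, (((2 * j).choose (2 * s + 2) : ℕ) * 4 ^ (s + 1) *
          ((-1) ^ k * (4 * (k : ℚ) - 1) ^ (2 * (j - s) + 1) * b k ^ 3 +
            3 * ((-1) ^ k * (4 * (k : ℚ) - 1) ^ (2 * (j - s - 1) + 1) * b k ^ 3)) -
        ((2 * j).choose (2 * s + 1) : ℕ) * 2 ^ (2 * s + 1) *
          (3 * ((-1) ^ k * (4 * (k : ℚ) - 1) ^ (2 * (j - s) + 1) * b k ^ 3) +
            (-1) ^ k * (4 * (k : ℚ) - 1) ^ (2 * (j - s - 1) + 1) * b k ^ 3))) := by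
    intro k _
    rw [odd_poly]
    have : ∀ A : ℚ, (-1 : ℚ) ^ k * (2 * A) * b k ^ 3 = 2 * ((-1) ^ k * b k ^ 3 * A) := by
      intro A; ring
    rw [this]
    congr 1
    rw [mul_add, mul_sum]
    congr 1
    · ring
    · apply sum_congr rfl
      intro s _
      ring
  rw [sum_congr rfl e, ← mul_sum, sum_add_distrib, sum_add_distrib, sum_comm] at h
  have e2 : ∑ s ∈ range j, ∑ k ∈ range (N + 1), ((((2 * j).choose (2 * s + 2) : ℕ) : ℚ) * 4 ^ (s + 1) *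
          ((-1) ^ k * (4 * (k : ℚ) - 1) ^ (2 * (j - s) + 1) * b k ^ 3 +
            3 * ((-1) ^ k * (4 * (k : ℚ) - 1) ^ (2 * (j - s - 1) + 1) * b k ^ 3)) -
        ((2 * j).choose (2 * s + 1) : ℕ) * 2 ^ (2 * s + 1) *
          (3 * ((-1) ^ k * (4 * (k : ℚ) - 1) ^ (2 * (j - s) + 1) * b k ^ 3) +
            (-1) ^ k * (4 * (k : ℚ) - 1) ^ (2 * (j - s - 1) + 1) * b k ^ 3)) =
      ∑ s ∈ range j, ((((2 * j).choose (2 * s + 2) : ℕ) : ℚ) * 4 ^ (s + 1) *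
          (S (2 * (j - s) + 1) N + 3 * S (2 * (j - s - 1) + 1) N) -
        ((2 * j).choose (2 * s + 1) : ℕ) * 2 ^ (2 * s + 1) *
          (3 * S (2 * (j - s) + 1) N + S (2 * (j - s - 1) + 1) N)) := by
    apply sum_congr rfl
    intro s _
    rw [sum_sub_distrib, ← mul_sum, ← mul_sum, sum_add_distrib, sum_add_distrib, ← mul_sum, ← mul_sum]
    rfl
  rw [e2, ← mul_sum] at h
  have e3 : ∀ f g : ℕ → ℚ, ∑ s ∈ range j, (f s - g s) = - ∑ s ∈ range j, (g s - f s) := by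
    intro f g
    rw [← sum_neg_distrib]
    apply sum_congr rfl
    intro s _; ring
  rw [e3] at h
  have e4 : ∀ m, ∑ k ∈ range (N + 1), (-1) ^ k * (4 * (k : ℚ) - 1) ^ m * b k ^ 3 = S m N := fun m => rfl
  rw [e4, e4] at h
  linarith

/-- The truncated sum with exponent `2 i + 1` is a multiple of the one with exponent `1`, up to an
integral multiple of the boundary term. -/
lemma S_red (i : ℕ) : ∃ g : ℕ → ℤ, ∀ N, S (2 * i + 1) N = - (cst i : ℚ) * S 1 N + 32 * (g N : ℚ) * B N := by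
  induction i using Nat.strong_induction_on with
  | _ i ih =>
    rcases i with _ | j
    · refine ⟨fun _ => 0, fun N => ?_⟩
      simp [cst]
    · have ih' : ∀ i, ∃ g : ℕ → ℤ, i < j + 1 → ∀ N, S (2 * i + 1) N =
          - (cst i : ℚ) * S 1 N + 32 * (g N : ℚ) * B N := by
        intro i
        by_cases h : i < j + 1
        · obtain ⟨g, hg⟩ := ih i h
          exact ⟨g, fun _ => hg⟩
        · exact ⟨fun _ => 0, fun h' => absurd h' h⟩
      choose g hg using ih'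
      refine ⟨fun N => (4 * N + 1) ^ (2 * j) - 3 * g j N + ∑ s : Fin j,
        (((2 * j).choose (2 * (s : ℕ) + 1) : ℕ) * 2 ^ (2 * (s : ℕ) + 1) *
          (3 * g (j - s) N + g (j - s - 1) N) -
        ((2 * j).choose (2 * (s : ℕ) + 2) : ℕ) * 4 ^ ((s : ℕ) + 1) *
          (g (j - s) N + 3 * g (j - s - 1) N)), fun N => ?_⟩
      rw [S_rec, hg j (by omega) N]
      rw [cst, ← Fin.sum_univ_eq_sum_range (fun s => (((2 * j).choose (2 * s + 1) : ℕ) : ℚ) * 2 ^ (2 * s + 1) *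
          (3 * S (2 * (j - s) + 1) N + S (2 * (j - s - 1) + 1) N) -
      ((2 * j).choose (2 * s + 2) : ℕ) * 4 ^ (s + 1) *
          (S (2 * (j - s) + 1) N + 3 * S (2 * (j - s - 1) + 1) N))]
      push_cast
      have e : ∀ s : Fin j, (((2 * j).choose (2 * (s : ℕ) + 1) : ℕ) : ℚ) * 2 ^ (2 * (s : ℕ) + 1) *
          (3 * S (2 * (j - s) + 1) N + S (2 * (j - s - 1) + 1) N) -
          ((2 * j).choose (2 * (s : ℕ) + 2) : ℕ) * 4 ^ ((s : ℕ) + 1) *
          (S (2 * (j - s) + 1) N + 3 * S (2 * (j - s - 1) + 1) N) =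
          - ((((2 * j).choose (2 * (s : ℕ) + 1) : ℕ) : ℚ) * 2 ^ (2 * (s : ℕ) + 1) *
            (3 * cst (j - s) + cst (j - s - 1)) -
            ((2 * j).choose (2 * (s : ℕ) + 2) : ℕ) * 4 ^ ((s : ℕ) + 1) *
            (cst (j - s) + 3 * cst (j - s - 1))) * S 1 N +
          32 * ((((2 * j).choose (2 * (s : ℕ) + 1) : ℕ) : ℚ) * 2 ^ (2 * (s : ℕ) + 1) *
            (3 * g (j - s) N + g (j - s - 1) N) -
            ((2 * j).choose (2 * (s : ℕ) + 2) : ℕ) * 4 ^ ((s : ℕ) + 1) *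
            (g (j - s) N + 3 * g (j - s - 1) N)) * B N := by
        intro s
        rw [hg (j - s) (by omega) N, hg (j - s - 1) (by omega) N]
        ring
      rw [sum_congr rfl fun s _ => e s, sum_add_distrib, ← sum_mul, ← sum_mul, sum_neg_distrib, ← mul_sum]
      ring

end Pool.Agent.Helper62K9.SC
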