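import Pool.Agent.Helper62K9.SC.Basic

set_option autoImplicit false
set_option linter.unusedSectionVars false

/-!
# The telescoping identities
-/

namespace Pool.Agent.Helper62K9.SC

open Finset

lemma choose_rec1 (m k : ℕ) : ((m : ℚ) + 1 - k) * ((m + 1).choose k : ℕ) = (m + 1) * (m.choose k : ℕ) := by
  rcases Nat.lt_or_ge (m + 1) k with h | h
  · rw [Nat.choose_eq_zero_of_lt h, Nat.choose_eq_zero_of_lt (by omega)]; simp
  · have := Nat.choose_mul_succ_eq m k
    have h2 : (((m.choose k) * (m + 1) : ℕ) : ℚ) = (((m + 1).choose k * (m + 1 - k) : ℕ) : ℚ) := by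
      rw [this]
    push_cast [Nat.cast_sub h] at h2
    linarith

lemma choose_rec2 (m k : ℕ) : ((k : ℚ) + 1) * (m.choose (k + 1) : ℕ) = (m - k) * (m.choose k : ℕ) := by
  rcases Nat.lt_or_ge m k with h | h
  · rw [Nat.choose_eq_zero_of_lt h, Nat.choose_eq_zero_of_lt (by omega)]; simp
  · have := Nat.choose_succ_right_eq m k
    have h2 : (((m.choose (k + 1)) * (k + 1) : ℕ) : ℚ) = ((m.choose k * (m - k) : ℕ) : ℚ) := by
      rw [this]
    push_cast [Nat.cast_sub h] at h2
    linarith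

lemma choose_rec3 (m k : ℕ) : ((k : ℚ) + 1) * ((m + 1).choose (k + 1) : ℕ) = (m + 1) * (m.choose k : ℕ) := by
  have := Nat.add_one_mul_choose_eq m k
  have h2 : (((m + 1) * m.choose k : ℕ) : ℚ) = (((m + 1).choose (k + 1) * (k + 1) : ℕ) : ℚ) := by
    rw [this]
  push_cast at h2
  linarith

lemma cb_rec (n : ℕ) : ((n : ℚ) + 1) * ((2 * (n + 1)).choose (n + 1) : ℕ) =
    2 * (2 * n + 1) * ((2 * n).choose n : ℕ) := by
  have := Nat.succ_mul_centralBinom_succ n
  unfold Nat.centralBinom at this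
  have h3 : (((n + 1) * (2 * (n + 1)).choose (n + 1) : ℕ) : ℚ) = ((2 * (2 * n + 1) * (2 * n).choose n : ℕ) : ℚ) := by
    rw [this]
  push_cast at h3
  linarith

lemma cb_ne (n : ℕ) : (((2 * n).choose n : ℕ) : ℚ) ≠ 0 := by
  have : 0 < (2 * n).choose n := Nat.choose_pos (by omega)
  exact_mod_cast this.ne'

/-- the common factor of the WZ pair -/
def W (n j : ℕ) : ℚ :=
  4 ^ j / 4 ^ n * ((2 * (n + j)).choose (n + j) : ℕ) * ((n + j).choose (2 * j) : ℕ) /
    ((2 * j).choose j : ℕ)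

lemma W_zero (n : ℕ) : W n 0 = - ((2 * n - 1) * b n) := by
  rw [b_eq]
  unfold W
  simp
  ring

lemma W_lt {n j : ℕ} (h : n < j) : W n j = 0 := by
  unfold W
  rw [Nat.choose_eq_zero_of_lt (show n + j < 2 * j by omega)]
  simp

lemma W_rec1 (n j : ℕ) : 2 * ((n : ℚ) + 1 - j) * W (n + 1) j = (2 * n + 2 * j + 1) * W n j := by
  have h1 := cb_rec (n + j)
  have h2 := choose_rec1 (n + j) (2 * j)
  have h0 : ((n : ℚ) + j + 1) ≠ 0 := by positivity
  have h4 : (4 : ℚ) ^ n ≠ 0 := by positivity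
  have hcb := cb_ne j
  unfold W
  rw [show n + 1 + j = n + j + 1 by ring]
  push_cast at h1 h2
  rw [pow_succ]
  field_simp
  generalize (((2 * (n + j + 1)).choose (n + j + 1) : ℕ) : ℚ) = A at *
  generalize (((n + j + 1).choose (2 * j) : ℕ) : ℚ) = B at *
  generalize (((2 * (n + j)).choose (n + j) : ℕ) : ℚ) = C at *
  generalize (((n + j).choose (2 * j) : ℕ) : ℚ) = D at *
  apply mul_left_cancel₀ h0
  linear_combination (2 * (n + 1 - j) * B) * h1 + (4 * (2 * (n + j) + 1)) * C * h2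

lemma W_rec2 (n j : ℕ) : (2 * (j : ℚ) + 1) ^ 2 * W n (j + 1) =
    2 * (2 * n + 2 * j + 1) * (n - j) * W n j := by
  have h1 := cb_rec (n + j)
  have h2 := choose_rec3 (n + j) (2 * j + 1)
  have h3 := choose_rec2 (n + j) (2 * j)
  have h5 := cb_rec j
  have h0 : ((n : ℚ) + j + 1) ≠ 0 := by positivity
  have h4 : (4 : ℚ) ^ n ≠ 0 := by positivity
  have hj : ((j : ℚ) + 1) ≠ 0 := by positivity
  have hj2 : (2 * (j : ℚ) + 1) ≠ 0 := by positivity
  have hcb := cb_ne j
  have hcb' := cb_ne (j + 1)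
  unfold W
  rw [show n + (j + 1) = n + j + 1 by ring, show 2 * (j + 1) = 2 * j + 1 + 1 by ring]
  rw [show 2 * (j + 1) = 2 * j + 1 + 1 by ring] at h5 hcb'
  push_cast at h1 h2 h3
  rw [pow_succ]
  generalize (((2 * (n + j + 1)).choose (n + j + 1) : ℕ) : ℚ) = A at *
  generalize (((n + j + 1).choose (2 * j + 1 + 1) : ℕ) : ℚ) = B at *
  generalize (((2 * (n + j)).choose (n + j) : ℕ) : ℚ) = C at *
  generalize (((n + j).choose (2 * j) : ℕ) : ℚ) = D at *
  generalize (((n + j).choose (2 * j + 1) : ℕ) : ℚ) = D' at *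
  generalize (((2 * j).choose j : ℕ) : ℚ) = E at *
  generalize (((2 * j + 1 + 1).choose (j + 1) : ℕ) : ℚ) = E' at *
  have hA : A = 2 * (2 * (n + j) + 1) * C / (n + j + 1) := by field_simp; linarith
  have hD' : D' = (n + j - 2 * j) * D / (2 * j + 1) := by field_simp; linarith
  have hB : B = (n + j + 1) * D' / (2 * (j + 1)) := by field_simp; linarith
  have hE' : E' = 2 * (2 * j + 1) * E / (j + 1) := by field_simp; linarith
  rw [hA, hB, hD', hE']
  field_simp
  ring

/-- the second half of the WZ pair, summed form -/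
def G (N j : ℕ) : ℚ := -((-1) ^ (N + j) * (2 * N - 1) ^ 2 * b N ^ 2 * W N j)

/-- the first half of the WZ pair with second argument `j + 1` -/
def F (n j : ℕ) : ℚ := 2 * (-1) ^ (n + j) * (4 * n - 1) * (n - j) * b n ^ 2 * W n j

/-- the truncated sums -/
def S (m N : ℕ) : ℚ := ∑ k ∈ range (N + 1), (-1) ^ k * (4 * (k : ℚ) - 1) ^ m * b k ^ 3

lemma step0 (N : ℕ) : S 1 N - ∑ n ∈ range (N + 1), F n 0 = G N 0 := by
  induction N with
  | zero => simp [S, F, G, b_zero, W]
  | succ N ih =>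
    unfold S at ih ⊢
    rw [sum_range_succ, sum_range_succ (fun n => F n 0)]
    have h : G (N + 1) 0 - G N 0 = (-1) ^ (N + 1) * (4 * ((N + 1 : ℕ) : ℚ) - 1) ^ 1 * b (N + 1) ^ 3 -
        F (N + 1) 0 := by
      have hb := b_succ N
      unfold G F
      rw [W_zero, W_zero, ← hb]
      have : (2 * (N : ℚ) - 1) ^ 2 * b N ^ 2 = 4 * (N + 1) ^ 2 * b (N + 1) ^ 2 := by
        rw [← mul_pow, ← hb]; ring
      push_cast
      simp only [Nat.add_zero, pow_succ (-1 : ℚ) N]
      linear_combination (- (-1) ^ N * (2 * (N + 1) * b (N + 1))) * this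
    linarith

lemma step (N j : ℕ) : ∑ n ∈ range (N + 1), F n j - ∑ n ∈ range (N + 1), F n (j + 1) =
    G N (j + 1) := by
  induction N with
  | zero =>
    have h1 : W 0 (j + 1) = 0 := W_lt (by omega)
    simp only [zero_add, sum_range_one, F, G, h1]
    rcases j with _ | j
    · simp
    · have h2 : W 0 (j + 1) = 0 := W_lt (by omega)
      rw [h2]; simp
  | succ N ih =>
    rw [sum_range_succ, sum_range_succ (fun n => F n (j + 1))]
    have h : G (N + 1) (j + 1) - G N (j + 1) = F (N + 1) j - F (N + 1) (j + 1) := by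
      have hb := b_succ N
      have h1 := W_rec1 N (j + 1)
      have h2 := W_rec2 (N + 1) j
      have this : (2 * (N : ℚ) - 1) ^ 2 * b N ^ 2 = 4 * (N + 1) ^ 2 * b (N + 1) ^ 2 := by
        rw [← mul_pow, ← hb]; ring
      unfold G F
      rw [show (-1 : ℚ) ^ (N + (j + 1)) * (2 * N - 1) ^ 2 * b N ^ 2 * W N (j + 1) =
        (-1 : ℚ) ^ (N + (j + 1)) * ((2 * N - 1) ^ 2 * b N ^ 2) * W N (j + 1) by ring, this]
      rw [show N + 1 + (j + 1) = (N + j + 1) + 1 by ring, show N + 1 + j = N + j + 1 by ring,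
        show N + (j + 1) = N + j + 1 by ring, pow_succ (-1 : ℚ) (N + j + 1)]
      push_cast at h1 h2 ⊢
      have hD : (2 * (N : ℚ) + 2 * j + 3) ≠ 0 := by positivity
      apply mul_left_cancel₀ hD
      generalize W (N + 1) (j + 1) = w at *
      generalize W (N + 1) j = w1 at *
      generalize W N (j + 1) = w2 at *
      generalize (-1 : ℚ) ^ (N + j + 1) = e at *
      generalize b (N + 1) = bb at *
      linear_combination (-e * bb ^ 2 * 4 * (N + 1) ^ 2) * h1 + (e * bb ^ 2 * (4 * N + 3)) * h2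
    linarith

/-- the fundamental formula -/
lemma S_eq (N K : ℕ) : S 1 N = ∑ n ∈ range (N + 1), F n K + ∑ j ∈ range (K + 1), G N j := by
  induction K with
  | zero => have := step0 N; simp; linarith
  | succ K ih =>
    rw [sum_range_succ (fun j => G N j), ih]
    have := step N K
    linarith

lemma F_zero {n j : ℕ} (h : n ≤ j) : F n j = 0 := by
  rcases h.lt_or_eq with h | h
  · unfold F; rw [W_lt h]; simp
  · subst h; simp [F]

end Pool.Agent.Helper62K9.SC
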